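import Pool.Agent.Q96.ID.Stm

set_option autoImplicit false

namespace Q254.ID.ULTRA

open Cardinal Set Filter Topology Q96.ID

/-- The filter of part (i). -/
def filt (κ : Cardinal.{0}) (hκ : ℵ₀ ≤ κ) (I : Type) (hI : #I = κ) : Filter (I × I) where
  sets := {D | #{ξ : I // #{η : I // (ξ, η) ∉ D} = κ} < κ}
  univ_sets := by
    have h : #{ξ : I // #{η : I // (ξ, η) ∉ (univ : Set (I × I))} = κ} = 0 := by
      rw [mk_eq_zero_iff]
      refine ⟨fun ξ => ?_⟩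
      have h3 := ξ.2
      have h4 : #{η : I // (ξ.1, η) ∉ (univ : Set (I × I))} = 0 := by
        rw [mk_eq_zero_iff]
        exact ⟨fun η => η.2 (mem_univ _)⟩
      rw [h4] at h3
      exact absurd h3.symm (aleph0_pos.trans_le hκ).ne'
    show _ < κ
    rw [h]
    exact aleph0_pos.trans_le hκ
  sets_of_superset := by
    intro D D' hD hDD
    have hD0 : #{ξ : I // #{η : I // (ξ, η) ∉ D} = κ} < κ := hD
    refine lt_of_le_of_lt (b := #{ξ : I // #{η : I // (ξ, η) ∉ D} = κ}) ?_ hD0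
    refine mk_le_mk_of_subset (s := {ξ : I | #{η : I // (ξ, η) ∉ D'} = κ})
      (t := {ξ : I | #{η : I // (ξ, η) ∉ D} = κ}) ?_
    intro ξ hξ
    have h1 : #{η : I // (ξ, η) ∉ D'} ≤ #{η : I // (ξ, η) ∉ D} :=
      mk_le_mk_of_subset (s := {η : I | (ξ, η) ∉ D'}) (t := {η : I | (ξ, η) ∉ D})
        (fun η hη h => hη (hDD h))
    have h2 : #{η : I // (ξ, η) ∉ D} ≤ κ := hI ▸ mk_subtype_le _
    exact le_antisymm h2 (le_of_eq_of_le hξ.symm h1)
  inter_sets := by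
    intro D D' hD hD'
    have hD0 : #{ξ : I // #{η : I // (ξ, η) ∉ D} = κ} < κ := hD
    have hD1 : #{ξ : I // #{η : I // (ξ, η) ∉ D'} = κ} < κ := hD'
    have h1 := add_lt_of_lt hκ hD0 hD1
    show #{ξ : I // #{η : I // (ξ, η) ∉ D ∩ D'} = κ} < κ
    refine lt_of_le_of_lt ?_ h1
    refine le_trans (mk_le_mk_of_subset
      (s := {ξ : I | #{η : I // (ξ, η) ∉ D ∩ D'} = κ})
      (t := {ξ : I | #{η : I // (ξ, η) ∉ D} = κ} ∪ {ξ : I | #{η : I // (ξ, η) ∉ D'} = κ}) ?_)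
      (mk_union_le _ _)
    intro ξ hξ
    by_contra hcon
    rw [mem_union, not_or] at hcon
    have h2 : #{η : I // (ξ, η) ∉ D} < κ :=
      lt_of_le_of_ne (hI ▸ mk_subtype_le _) hcon.1
    have h3 : #{η : I // (ξ, η) ∉ D'} < κ :=
      lt_of_le_of_ne (hI ▸ mk_subtype_le _) hcon.2
    have h4 := add_lt_of_lt hκ h2 h3
    refine absurd hξ (ne_of_lt (lt_of_le_of_lt ?_ h4))
    refine le_trans (mk_le_mk_of_subset
      (s := {η : I | (ξ, η) ∉ D ∩ D'})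
      (t := {η : I | (ξ, η) ∉ D} ∪ {η : I | (ξ, η) ∉ D'}) ?_)
      (mk_union_le _ _)
    intro η hη
    by_contra hcon2
    rw [mem_union, not_or] at hcon2
    exact hη ⟨not_not.1 hcon2.1, not_not.1 hcon2.2⟩

/-- The filter of part (ii). -/
def filt2 (κ : Cardinal.{0}) (hκ : ℵ₀ ≤ κ) (X G : Type) (C : Set X) (D : G → Set X) :
    Filter X where
  sets := {S | ∃ F : Finset G, #{x : X // x ∈ C ∧ (∀ γ ∈ F, x ∈ D γ) ∧ x ∉ S} < κ}
  univ_sets := by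
    refine ⟨∅, ?_⟩
    have h : #{x : X // x ∈ C ∧ (∀ γ ∈ (∅ : Finset G), x ∈ D γ) ∧ x ∉ (univ : Set X)} = 0 := by
      rw [mk_eq_zero_iff]
      exact ⟨fun x => x.2.2.2 (mem_univ _)⟩
    rw [h]
    exact aleph0_pos.trans_le hκ
  sets_of_superset := by
    rintro S S' ⟨F, hF⟩ hSS
    refine ⟨F, lt_of_le_of_lt ?_ hF⟩
    exact mk_le_mk_of_subset (s := {x : X | x ∈ C ∧ (∀ γ ∈ F, x ∈ D γ) ∧ x ∉ S'})
      (t := {x : X | x ∈ C ∧ (∀ γ ∈ F, x ∈ D γ) ∧ x ∉ S})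
      (fun x hx => ⟨hx.1, hx.2.1, fun h => hx.2.2 (hSS h)⟩)
  inter_sets := by
    classical
    rintro S S' ⟨F, hF⟩ ⟨F', hF'⟩
    refine ⟨F ∪ F', ?_⟩
    have h1 := add_lt_of_lt hκ hF hF'
    refine lt_of_le_of_lt ?_ h1
    refine le_trans (mk_le_mk_of_subset
      (s := {x : X | x ∈ C ∧ (∀ γ ∈ F ∪ F', x ∈ D γ) ∧ x ∉ S ∩ S'})
      (t := {x : X | x ∈ C ∧ (∀ γ ∈ F, x ∈ D γ) ∧ x ∉ S} ∪
        {x : X | x ∈ C ∧ (∀ γ ∈ F', x ∈ D γ) ∧ x ∉ S'}) ?_)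
      (mk_union_le _ _)
    rintro x ⟨hC, hD, hS⟩
    by_cases h : x ∈ S
    · refine Or.inr ⟨hC, fun γ hγ => hD γ (Finset.mem_union_right _ hγ), fun h' => hS ⟨h, h'⟩⟩
    · exact Or.inl ⟨hC, fun γ hγ => hD γ (Finset.mem_union_left _ hγ), h⟩

theorem t_ULTRA : S_ULTRA := by
  constructor
  · intro κ hκ I hI
    have hne : (filt κ hκ I hI).NeBot := by
      rw [Filter.neBot_iff]
      intro hbot
      have h0 : (∅ : Set (I × I)) ∈ filt κ hκ I hI := by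
        rw [hbot]; exact Filter.mem_bot
      have h1 : #{ξ : I // #{η : I // (ξ, η) ∉ (∅ : Set (I × I))} = κ} < κ := h0
      have h2 : #{ξ : I // #{η : I // (ξ, η) ∉ (∅ : Set (I × I))} = κ} = κ := by
        have h3 : ∀ ξ : I, #{η : I // (ξ, η) ∉ (∅ : Set (I × I))} = κ := by
          intro ξ
          rw [← hI]
          exact mk_congr (Equiv.subtypeUnivEquiv fun η => Set.notMem_empty _)
        conv_rhs => rw [← hI]
        exact mk_congr (Equiv.subtypeUnivEquiv h3)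
      exact absurd h2 h1.ne
    refine ⟨Ultrafilter.of (filt κ hκ I hI), fun D hD => ?_⟩
    by_contra hB
    have h1 : #{ξ : I // #{η : I // (ξ, η) ∈ D} = κ} < κ :=
      lt_of_le_of_ne (hI ▸ mk_subtype_le _) hB
    have h2 : Dᶜ ∈ filt κ hκ I hI := by
      show #{ξ : I // #{η : I // (ξ, η) ∉ Dᶜ} = κ} < κ
      simpa only [mem_compl_iff, not_not] using h1
    have h3 : Dᶜ ∈ Ultrafilter.of (filt κ hκ I hI) := Ultrafilter.of_le _ h2
    exact (Ultrafilter.compl_mem_iff_notMem.1 h3) hD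
  · intro κ hκ X G C D hCD
    have hne : (filt2 κ hκ X G C D).NeBot := by
      rw [Filter.neBot_iff]
      intro hbot
      have h0 : (∅ : Set X) ∈ filt2 κ hκ X G C D := by
        rw [hbot]; exact Filter.mem_bot
      obtain ⟨F, hF⟩ := h0
      refine absurd (hCD F) (not_le.2 (lt_of_le_of_lt ?_ hF))
      exact mk_le_mk_of_subset (s := {x : X | x ∈ C ∧ ∀ γ ∈ F, x ∈ D γ})
        (t := {x : X | x ∈ C ∧ (∀ γ ∈ F, x ∈ D γ) ∧ x ∉ (∅ : Set X)})
        (fun x hx => ⟨hx.1, hx.2, Set.notMem_empty _⟩)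
    have hz : ∀ (P : X → Prop), (∀ x, ¬ P x) → #{x : X // P x} < κ := by
      intro P hP
      have h : #{x : X // P x} = 0 := by
        rw [mk_eq_zero_iff]
        exact ⟨fun x => hP x.1 x.2⟩
      rw [h]
      exact aleph0_pos.trans_le hκ
    refine ⟨Ultrafilter.of (filt2 κ hκ X G C D), ?_, fun γ => ?_, fun N hN => ?_⟩
    · refine Ultrafilter.of_le _ ⟨∅, hz _ fun x hx => hx.2.2 hx.1⟩
    · refine Ultrafilter.of_le _ ⟨{γ}, hz _ fun x hx => hx.2.2 (hx.2.1 γ (Finset.mem_singleton_self γ))⟩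
    · refine Ultrafilter.of_le _ ⟨∅, lt_of_le_of_lt ?_ hN⟩
      exact mk_le_mk_of_subset
        (s := {x : X | x ∈ C ∧ (∀ γ ∈ (∅ : Finset G), x ∈ D γ) ∧ x ∉ Nᶜ}) (t := N)
        (fun x hx => not_not.1 hx.2.2)

end Q254.ID.ULTRA
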